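import Pool.Agent.Helper74.HG.GoalsG
import Pool.Agent.Helper7.HG.ZPR

/-!
# Packet HG-ZPRG: the global topological zeta function of a product in separate variables
-/

namespace Pool.Agent.Helper88.HG.ZPRG

open MvPolynomial Pool.Agent.Helper74.HG
open Pool.Agent.Helper7.HG.ZPR

theorem form_mul (hp : ZPKG) {K : Type} [Field K] [Finite K] {σ τ : Type} [Fintype σ] [Fintype τ]
    {f : MvPolynomial σ K} {g : MvPolynomial τ K} {L L' : List Str}
    (h : FormG K f L) (h' : FormG K g L') :
    FormG K (rename Sum.inl f * rename Sum.inr g) (lmul mS L L') := by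
  obtain ⟨M, hM, hE, hc⟩ := h
  obtain ⟨M', hM', hE', hc'⟩ := h'
  refine ⟨lmul mM M M', ?_, ?_, ?_⟩
  · rw [lmul_map Prod.snd mM mS (fun _ _ => rfl), hM, hM']
  · intro T hT
    obtain ⟨a, ha, b, hb, rfl⟩ := mem_lmul hT
    exact ev_prod (hE a ha) (hE' b hb)
  · intro E _ _ _ m
    have h1 : map (algebraMap K E) (rename Sum.inl f * rename Sum.inr g :
        MvPolynomial (σ ⊕ τ) K) =
        rename Sum.inl (map (algebraMap K E) f) * rename Sum.inr (map (algebraMap K E) g) := by
      rw [map_mul, map_rename, map_rename]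
    rw [h1, hp E (map (algebraMap K E) f) (map (algebraMap K E) g) m]
    have h2 : ∀ T T' : (ℕ → ℂ) × Str,
        (PowerSeries.C ((mM T T').1 (Module.finrank K E)) *
          ((mM T T').2.2.map (fac (Nat.card E))).prod : PowerSeries ℂ) =
        (PowerSeries.C (T.1 (Module.finrank K E)) * (T.2.2.map (fac (Nat.card E))).prod) *
        (PowerSeries.C (T'.1 (Module.finrank K E)) * (T'.2.2.map (fac (Nat.card E))).prod) := by
      intro T T'
      unfold mM mS
      dsimp only
      rw [List.map_append, List.prod_append, map_mul]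
      ring
    rw [map_sum_mul mM _ h2, PowerSeries.coeff_mul]
    refine Finset.sum_congr rfl fun p _ => ?_
    rw [hc E p.1, hc' E p.2]

theorem t (hp : ZPKG) : Pool.Agent.Helper74.HG.ZPRG := by
  classical
  intro σ τ _ _ f g Z Z' hZ hZ'
  obtain ⟨s, p, L, hp1, hL, hF, rfl⟩ := hZ
  obtain ⟨s', p', L', hp1', hL', hF', rfl⟩ := hZ'
  have i1 : Rg s ≤ Rg (s ∪ s') :=
    Subring.closure_mono (by rw [Finset.coe_union]; exact Set.subset_union_left)
  have i2 : Rg s' ≤ Rg (s ∪ s') :=
    Subring.closure_mono (by rw [Finset.coe_union]; exact Set.subset_union_right)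
  refine ⟨s ∪ s', rename Sum.inl (map (Subring.inclusion i1) p) *
    rename Sum.inr (map (Subring.inclusion i2) p'), lmul mS L L', ?_, ?_, ?_, ?_⟩
  · rw [map_mul, map_rename, map_rename, map_map, map_map]
    rw [inc_comp i1, inc_comp i2, hp1, hp1']
  · intro S hS d hd
    obtain ⟨a, ha, b, hb, rfl⟩ := mem_lmul hS
    rcases List.mem_append.mp hd with h | h
    · exact hL a ha d h
    · exact hL' b hb d h
  · intro K _ _ ψ
    rw [map_mul, map_rename, map_rename, map_map, map_map]
    exact form_mul hp (hF K (ψ.comp (Subring.inclusion i1)))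
      (hF' K (ψ.comp (Subring.inclusion i2)))
  · exact (map_sum_mul mS ratS ratS_mul L L').symm

end Pool.Agent.Helper88.HG.ZPRG
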